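import Mathlib

/-!
Tight contact pairs (MP_e6c4d0_gt): the second homology of a blown-up ruled surface over the
sphere, the chains of spheres in its special fibres, the rotation numbers of the tight contact
structures of both signs on the Seifert manifold separating the two sections, and equality of
their spin^c structures.
-/

namespace Pool.Agent.H95.TP

/-- Generators: the section `C0`, the fibre `F` and the exceptional classes `e_(i,j)`. -/
inductive Gen (l : ℕ) : Type
  | C0 : Gen l
  | F : Gen l
  | exc (i : Fin l) (j : ℕ) : Gen l
  deriving DecidableEq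

/-- Second homology of the ruled surface blown up in (arbitrarily many) points of `l` fibres. -/
abbrev H2 (l : ℕ) : Type := Gen l →₀ ℤ

/-- The section of square `-e`. -/
noncomputable def C0 {l : ℕ} : H2 l := Finsupp.single Gen.C0 1

/-- The class of a fibre. -/
noncomputable def Fib {l : ℕ} : H2 l := Finsupp.single Gen.F 1

/-- The `j`-th exceptional class over the `i`-th fibre. -/
noncomputable def Exc {l : ℕ} (i : Fin l) (j : ℕ) : H2 l := Finsupp.single (Gen.exc i j) 1

/-- Intersection number of a generator with a class:
`C0.C0 = -e`, `C0.F = 1`, `F.F = 0`, `e_(i,j).e_(i,j) = -1`, all others `0`. -/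
def pair {l : ℕ} (e : ℕ) (g : Gen l) (y : H2 l) : ℤ :=
  match g with
  | Gen.C0 => -(e : ℤ) * y Gen.C0 + y Gen.F
  | Gen.F => y Gen.C0
  | Gen.exc i j => -y (Gen.exc i j)

/-- The intersection form. -/
noncomputable def form {l : ℕ} (e : ℕ) (x y : H2 l) : ℤ := x.sum fun g c => c * pair e g y

/-- The other section after the first blow-ups: `C0 + e F - sum of the e_(i,0)`. -/
noncomputable def Cinf {l : ℕ} (e : ℕ) : H2 l :=
  C0 + (e : ℤ) • Fib - ∑ i : Fin l, Exc i 0

/-- Blow-up (exceptional class `x`) of a chain `C0 - .. - A - E - B - .. - Cinf`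
(`E` the `(-1)`-curve; the chain is stored as `(A :: .., E, B :: ..)`, both lists start next to
`E`) at the point `A ∩ E` (`true`) or `B ∩ E` (`false`). -/
noncomputable def blow {l : ℕ} (x : H2 l) :
    Bool → List (H2 l) × H2 l × List (H2 l) → List (H2 l) × H2 l × List (H2 l)
  | true, (A :: S, E, T) => ((A - x) :: S, x, (E - x) :: T)
  | false, (S, E, B :: T) => ((E - x) :: S, x, (B - x) :: T)
  | _, c => c

/-- The `i`-th special fibre as a chain of spheres `(S, E, T)`: the fibre is blown up in its
point on the second section, then in the point of the strict transform on the exceptional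
curve, then as prescribed by the word. -/
noncomputable def fibre {l : ℕ} (i : Fin l) : List Bool → List (H2 l) × H2 l × List (H2 l)
  | [] => ([Fib - Exc i 0 - Exc i 1], Exc i 1, [Exc i 0 - Exc i 1])
  | b :: w => blow (Exc i (w.length + 2)) b (fibre i w)

/-- `K` is a characteristic covector: `K(x) = x.x` mod 2. -/
def Characteristic {l : ℕ} (e : ℕ) (K : H2 l →+ ℤ) : Prop := ∀ x, Even (K x - form e x x)

/-- A positive tight contact structure on the boundary `Y` of the plumbing of `C0` and the
`S`-curves: rotation numbers `rot` of Legendrian unknots with `tb = C^2 + 1` representing `C0`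
and the `S`-curves. -/
structure PosTight {l : ℕ} (e : ℕ) (w : Fin l → List Bool) where
  /-- the rotation numbers -/
  rot : H2 l → ℤ
  center : |rot C0| ≤ (e : ℤ) - 2 ∧ Even (rot C0 - e)
  legs : ∀ i, ∀ S ∈ (fibre i (w i)).1, |rot S| ≤ -form e S S - 2 ∧ Even (rot S - form e S S)

/-- A negative tight contact structure on `Y`, i.e. a positive one on `-Y`: rotation numbers
`rot` of Legendrian knots with `tb = T^2 + 1` representing the `T`-curves; the curves meeting
`Cinf` pass once through the 1-handle (one more stabilisation). -/
structure NegTight {l : ℕ} (e : ℕ) (w : Fin l → List Bool) where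
  /-- the rotation numbers -/
  rot : H2 l → ℤ
  legs : ∀ i, ∀ T ∈ (fibre i (w i)).2.2,
    |rot T| ≤ -form e T T - 2 + form e T (Cinf e) ∧
      Even (rot T - form e T T - form e T (Cinf e))

/-- The two structures have the same spin^c structure: they are the restrictions of one
characteristic class `K` of the closed manifold; `t` is the lift of the class of the second
filling through the surgery which changes the neighbourhood of `Cinf` into the 1-handle. -/
def SameSpinc {l e : ℕ} {w : Fin l → List Bool} (ξ : PosTight e w) (η : NegTight e w) : Prop :=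
  ∃ (K : H2 l →+ ℤ) (t : ℤ), Characteristic e K ∧ Odd t ∧
    K C0 = ξ.rot C0 ∧ (∀ i, ∀ S ∈ (fibre i (w i)).1, K S = ξ.rot S) ∧
    K (Cinf e) = ((e : ℤ) - l) * t ∧
    ∀ i, ∀ T ∈ (fibre i (w i)).2.2, K T = η.rot T + form e T (Cinf e) * t

end Pool.Agent.H95.TP
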