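import Pool.Agent.H95.TP.Defs

namespace Pool.Agent.H95.TP

variable {l : ℕ}

theorem pair_add (e : ℕ) (g : Gen l) (x y : H2 l) :
    pair e g (x + y) = pair e g x + pair e g y := by
  cases g <;> simp only [pair, Finsupp.add_apply] <;> ring

theorem form_add_left (e : ℕ) (x y z : H2 l) :
    form e (x + y) z = form e x z + form e y z := by
  unfold form
  rw [Finsupp.sum_add_index']
  · intro g; simp
  · intro g a b; ring

theorem form_add_right (e : ℕ) (x y z : H2 l) :
    form e x (y + z) = form e x y + form e x z := by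
  unfold form
  simp only [pair_add, mul_add]
  exact Finsupp.sum_add

theorem form_single_left (e : ℕ) (g : Gen l) (y : H2 l) :
    form e (Finsupp.single g 1) y = pair e g y := by
  unfold form
  rw [Finsupp.sum_single_index] <;> simp

theorem pair_neg (e : ℕ) (g : Gen l) (y : H2 l) : pair e g (-y) = -pair e g y := by
  cases g <;> simp only [pair, Finsupp.neg_apply] <;> ring

theorem form_neg_left (e : ℕ) (x z : H2 l) : form e (-x) z = -form e x z := by
  have h := form_add_left e x (-x) z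
  have h0 : form e (0 : H2 l) z = 0 := by simp [form]
  rw [add_neg_cancel, h0] at h
  linarith

theorem form_neg_right (e : ℕ) (x z : H2 l) : form e x (-z) = -form e x z := by
  have h := form_add_right e x z (-z)
  have h0 : form e x (0 : H2 l) = 0 := by
    have := form_add_right e x 0 0
    rw [add_zero] at this
    linarith
  rw [add_neg_cancel, h0] at h
  linarith

theorem form_sub_left (e : ℕ) (x y z : H2 l) :
    form e (x - y) z = form e x z - form e y z := by
  rw [sub_eq_add_neg, form_add_left, form_neg_left, sub_eq_add_neg]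

theorem form_sub_right (e : ℕ) (x y z : H2 l) :
    form e x (y - z) = form e x y - form e x z := by
  rw [sub_eq_add_neg, form_add_right, form_neg_right, sub_eq_add_neg]

theorem form_exc_left (e : ℕ) (i : Fin l) (j : ℕ) (y : H2 l) :
    form e (Exc i j) y = -y (Gen.exc i j) := by
  rw [Exc, form_single_left]; rfl

theorem form_exc_right (e : ℕ) (i : Fin l) (j : ℕ) (x : H2 l) :
    form e x (Exc i j) = -x (Gen.exc i j) := by
  unfold form
  have h : ∀ g : Gen l, ∀ c : ℤ, c * pair e g (Exc i j)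
      = if g = Gen.exc i j then -c else 0 := by
    intro g c
    cases g with
    | C0 => simp [pair, Exc]
    | F => simp [pair, Exc]
    | exc i' j' =>
      by_cases h : Gen.exc i' j' = Gen.exc i j
      · rw [if_pos h]; simp [pair, Exc, h]
      · rw [if_neg h]
        simp only [pair, Exc, Finsupp.single_apply]
        rw [if_neg (fun h' => h h'.symm)]
        simp
  simp only [h]
  rw [Finsupp.sum, Finset.sum_ite_eq']
  split_ifs with hm
  · rfl
  · rw [Finsupp.notMem_support_iff.mp hm]; simp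

theorem exc_apply (i : Fin l) (j j' : ℕ) :
    (Exc i j : H2 l) (Gen.exc i j') = if j = j' then 1 else 0 := by
  unfold Exc
  rw [Finsupp.single_apply]
  simp

theorem cinf_apply (e : ℕ) (i : Fin l) {j : ℕ} (hj : j ≠ 0) :
    (Cinf e : H2 l) (Gen.exc i j) = 0 := by
  unfold Cinf
  simp only [Finsupp.coe_sub, Finsupp.coe_add, Pi.sub_apply, Pi.add_apply, Finsupp.finsetSum_apply]
  have h : ∀ i' : Fin l, (Exc i' 0 : H2 l) (Gen.exc i j) = 0 := by
    intro i'
    unfold Exc
    rw [Finsupp.single_apply, if_neg]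
    intro h
    cases h
    exact hj rfl
  simp [h, C0, Fib]

theorem cinf_apply_zero (e : ℕ) (i : Fin l) :
    (Cinf e : H2 l) (Gen.exc i 0) = -1 := by
  unfold Cinf
  simp only [Finsupp.coe_sub, Finsupp.coe_add, Pi.sub_apply, Pi.add_apply, Finsupp.finsetSum_apply]
  have h : ∀ i' : Fin l, (Exc i' 0 : H2 l) (Gen.exc i 0) = if i' = i then 1 else 0 := by
    intro i'
    unfold Exc
    rw [Finsupp.single_apply]
    simp
  simp [h, C0, Fib]

/-- weight -/
noncomputable def wt (e : ℕ) (x : H2 l) : ℤ := -form e x x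

/-- shifted value -/
noncomputable def vl (e : ℕ) (K : H2 l →+ ℤ) (t : ℤ) (x : H2 l) : ℤ :=
  K x - form e x (Cinf e) * t

theorem wt_sub_exc (e : ℕ) (i : Fin l) (j : ℕ) (A : H2 l) (hA : A (Gen.exc i j) = 0) :
    wt e (A - Exc i j) = wt e A + 1 := by
  unfold wt
  rw [form_sub_left, form_sub_right, form_sub_right, form_exc_left, form_exc_right,
    form_exc_right, exc_apply, hA]
  simp; ring

theorem vl_sub_exc (e : ℕ) (K : H2 l →+ ℤ) (t : ℤ) (i : Fin l) {j : ℕ} (hj : j ≠ 0) (A : H2 l) :
    vl e K t (A - Exc i j) = vl e K t A - K (Exc i j) := by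
  unfold vl
  rw [form_sub_left, form_exc_left, cinf_apply e i hj, map_sub]
  ring

/-- The invariant of the induction. `vS` is the value on the first list, `vl` on the second. -/
def Inv (e : ℕ) (K : H2 l →+ ℤ) (t : ℤ) (i : Fin l) (n : ℕ)
    (c : List (H2 l) × H2 l × List (H2 l)) : Prop :=
  ∃ A S B T, c = (A :: S, Exc i n, B :: T) ∧
    (∀ j, n < j → A (Gen.exc i j) = 0) ∧ (∀ j, n < j → B (Gen.exc i j) = 0) ∧
    ((0 < K (Exc i n) ∧ (wt e A ≤ -K A ∨ wt e B ≤ -vl e K t B)) ∨
      (K (Exc i n) < 0 ∧ (wt e A ≤ K A ∨ wt e B ≤ vl e K t B)) ∨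
      (∃ C ∈ S, wt e C ≤ |K C|) ∨ (∃ C ∈ T, wt e C ≤ |vl e K t C|))

theorem inv_step (e : ℕ) (K : H2 l →+ ℤ) (t : ℤ) (i : Fin l) {n : ℕ} (hn : n ≠ 0)
    (hK : ∀ j, K (Exc i j) ≠ 0)
    (c : List (H2 l) × H2 l × List (H2 l)) (h : Inv e K t i n c) (b : Bool) :
    Inv e K t i (n + 1) (blow (Exc i (n + 1)) b c) := by
  obtain ⟨A, S, B, T, rfl, hA, hB, h⟩ := h
  have hD : ∀ j, n + 1 < j → (Exc i n - Exc i (n + 1) : H2 l) (Gen.exc i j) = 0 := by
    intro j hj
    rw [Finsupp.sub_apply, exc_apply, exc_apply, if_neg (by omega), if_neg (by omega)]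
    ring
  have hX : ∀ C : H2 l, (∀ j, n < j → C (Gen.exc i j) = 0) →
      ∀ j, n + 1 < j → (C - Exc i (n + 1)) (Gen.exc i j) = 0 := by
    intro C hC j hj
    rw [Finsupp.sub_apply, exc_apply, if_neg (by omega), hC j (by omega)]
    ring
  have wD : wt e (Exc i n - Exc i (n + 1) : H2 l) = 2 := by
    rw [wt_sub_exc]
    · unfold wt
      rw [form_exc_left, exc_apply]; simp
    · rw [exc_apply, if_neg (by omega)]
  have KD : K (Exc i n - Exc i (n + 1)) = K (Exc i n) - K (Exc i (n + 1)) := map_sub _ _ _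
  have vD : vl e K t (Exc i n - Exc i (n + 1)) = K (Exc i n) - K (Exc i (n + 1)) := by
    rw [vl_sub_exc e K t i (by omega)]
    unfold vl
    rw [form_exc_left, cinf_apply e i hn]; ring
  have wA : wt e (A - Exc i (n + 1)) = wt e A + 1 := wt_sub_exc e i _ A (hA _ (by omega))
  have wB : wt e (B - Exc i (n + 1)) = wt e B + 1 := wt_sub_exc e i _ B (hB _ (by omega))
  have KA : K (A - Exc i (n + 1)) = K A - K (Exc i (n + 1)) := map_sub _ _ _
  have vB : vl e K t (B - Exc i (n + 1)) = vl e K t B - K (Exc i (n + 1)) :=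
    vl_sub_exc e K t i (by omega) B
  have h0 := hK n
  have h1 := hK (n + 1)
  cases b with
  | true =>
    refine ⟨A - Exc i (n + 1), S, Exc i n - Exc i (n + 1), B :: T, rfl, hX A hA, hD, ?_⟩
    rw [wA, KA, wD, vD]
    rcases lt_or_gt_of_ne h0 with k0 | k0 <;> rcases lt_or_gt_of_ne h1 with k1 | k1
    · rcases h with ⟨h, _⟩ | ⟨_, h | h⟩ | h | ⟨C, hC, h⟩
      · omega
      · right; left; refine ⟨k1, Or.inl (by omega)⟩
      · right; right; right
        exact ⟨B, by simp, h.trans (le_abs_self _)⟩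
      · right; right; left; exact h
      · right; right; right; exact ⟨C, by simp [hC], h⟩
    · left; refine ⟨k1, Or.inr (by omega)⟩
    · right; left; refine ⟨k1, Or.inr (by omega)⟩
    · rcases h with ⟨_, h | h⟩ | ⟨h, _⟩ | h | ⟨C, hC, h⟩
      · left; refine ⟨k1, Or.inl (by omega)⟩
      · right; right; right
        exact ⟨B, by simp, h.trans (neg_le_abs _)⟩
      · omega
      · right; right; left; exact h
      · right; right; right; exact ⟨C, by simp [hC], h⟩
  | false =>
    refine ⟨Exc i n - Exc i (n + 1), A :: S, B - Exc i (n + 1), T, rfl, hD, hX B hB, ?_⟩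
    rw [wB, vB, wD, KD]
    rcases lt_or_gt_of_ne h0 with k0 | k0 <;> rcases lt_or_gt_of_ne h1 with k1 | k1
    · rcases h with ⟨h, _⟩ | ⟨_, h | h⟩ | ⟨C, hC, h⟩ | h
      · omega
      · right; right; left
        exact ⟨A, by simp, h.trans (le_abs_self _)⟩
      · right; left; refine ⟨k1, Or.inr (by omega)⟩
      · right; right; left; exact ⟨C, by simp [hC], h⟩
      · right; right; right; exact h
    · left; refine ⟨k1, Or.inl (by omega)⟩
    · right; left; refine ⟨k1, Or.inl (by omega)⟩
    · rcases h with ⟨_, h | h⟩ | ⟨h, _⟩ | ⟨C, hC, h⟩ | h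
      · right; right; left
        exact ⟨A, by simp, h.trans (neg_le_abs _)⟩
      · left; refine ⟨k1, Or.inr (by omega)⟩
      · omega
      · right; right; left; exact ⟨C, by simp [hC], h⟩
      · right; right; right; exact h

theorem fib_apply (i : Fin l) (j : ℕ) : (Fib : H2 l) (Gen.exc i j) = 0 := by
  simp [Fib]

theorem form_fib_right (e : ℕ) (x : H2 l) : form e x Fib = x Gen.C0 := by
  unfold form
  have h : ∀ g : Gen l, ∀ c : ℤ, c * pair e g (Fib : H2 l)
      = if g = Gen.C0 then c else 0 := by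
    intro g c
    cases g with
    | C0 => simp [pair, Fib]
    | F => simp [pair, Fib]
    | exc i' j' => simp [pair, Fib]
  simp only [h]
  rw [Finsupp.sum, Finset.sum_ite_eq']
  split_ifs with hm
  · rfl
  · rw [Finsupp.notMem_support_iff.mp hm]

theorem form_fib_fib (e : ℕ) : form e (Fib : H2 l) Fib = 0 := by
  rw [form_fib_right]; simp [Fib]

theorem inv_start (e : ℕ) (K : H2 l →+ ℤ) (t : ℤ) (i : Fin l)
    (hK : ∀ j, K (Exc i j) ≠ 0) (hg : K (Fib - Exc i 0) < 0) (hu : 0 < K (Exc i 0) - t) :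
    Inv e K t i 1 (fibre i []) := by
  refine ⟨_, _, _, _, rfl, ?_, ?_, ?_⟩
  · intro j hj
    rw [Finsupp.sub_apply, Finsupp.sub_apply, exc_apply, exc_apply, if_neg (by omega),
      if_neg (by omega), fib_apply]; ring
  · intro j hj
    rw [Finsupp.sub_apply, exc_apply, exc_apply, if_neg (by omega), if_neg (by omega)]; ring
  · have wS : wt e (Fib - Exc i 0 - Exc i 1 : H2 l) = 2 := by
      rw [wt_sub_exc, wt_sub_exc]
      · unfold wt; rw [form_fib_fib]; ring
      · exact fib_apply i 0
      · rw [Finsupp.sub_apply, exc_apply, fib_apply]; simp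
    have wT : wt e (Exc i 0 - Exc i 1 : H2 l) = 2 := by
      rw [wt_sub_exc]
      · unfold wt; rw [form_exc_left, exc_apply]; simp
      · rw [exc_apply]; simp
    have vT : vl e K t (Exc i 0 - Exc i 1 : H2 l) = K (Exc i 0) - t - K (Exc i 1) := by
      rw [vl_sub_exc e K t i (by omega)]
      unfold vl
      rw [form_exc_left, cinf_apply_zero]; ring
    have KS : K (Fib - Exc i 0 - Exc i 1) = K (Fib - Exc i 0) - K (Exc i 1) := map_sub _ _ _
    rw [wS, wT, vT, KS]
    rcases lt_or_gt_of_ne (hK 1) with k | k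
    · right; left; exact ⟨k, Or.inr (by omega)⟩
    · left; exact ⟨k, Or.inl (by omega)⟩

theorem inv_all (e : ℕ) (K : H2 l →+ ℤ) (t : ℤ) (i : Fin l)
    (hK : ∀ j, K (Exc i j) ≠ 0) (hg : K (Fib - Exc i 0) < 0) (hu : 0 < K (Exc i 0) - t)
    (w : List Bool) : Inv e K t i (w.length + 1) (fibre i w) := by
  induction w with
  | nil => exact inv_start e K t i hK hg hu
  | cons b w ih =>
    exact inv_step e K t i (by omega) hK _ ih b

theorem leg_neg (e : ℕ) (K : H2 l →+ ℤ) (t : ℤ) (i : Fin l)
    (hK : ∀ j, K (Exc i j) ≠ 0) (w : List Bool)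
    (hS : ∀ S ∈ (fibre i w).1, |K S| < wt e S)
    (hT : ∀ T ∈ (fibre i w).2.2, |vl e K t T| < wt e T)
    (hg : K (Fib - Exc i 0) < 0) : K (Exc i 0) ≤ t := by
  by_contra hu
  obtain ⟨A, S, B, T, hc, -, -, h⟩ := inv_all e K t i hK hg (by omega) w
  rw [hc] at hS hT
  have a1 := hS A (by simp)
  have b1 := hT B (by simp)
  rw [abs_lt] at a1 b1
  rcases h with ⟨_, h | h⟩ | ⟨_, h | h⟩ | ⟨C, hC, h⟩ | ⟨C, hC, h⟩
  · omega
  · omega
  · omega
  · omega
  · exact absurd (hS C (by simp [hC])) (not_lt.mpr h)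
  · exact absurd (hT C (by simp [hC])) (not_lt.mpr h)

theorem leg_pos (e : ℕ) (K : H2 l →+ ℤ) (t : ℤ) (i : Fin l)
    (hK : ∀ j, K (Exc i j) ≠ 0) (w : List Bool)
    (hS : ∀ S ∈ (fibre i w).1, |K S| < wt e S)
    (hT : ∀ T ∈ (fibre i w).2.2, |vl e K t T| < wt e T)
    (hg : 0 < K (Fib - Exc i 0)) : t ≤ K (Exc i 0) := by
  have h := leg_neg e (-K) (-t) i (fun j => by simpa using hK j) w
    (fun S h => by simpa using hS S h)
    (fun T h => by
      have : vl e (-K) (-t) T = -vl e K t T := by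
        unfold vl; simp; ring
      rw [this, abs_neg]; exact hT T h)
    (by simpa using hg)
  simp only [AddMonoidHom.neg_apply] at h
  omega

theorem meet (e : ℕ) (i : Fin l) (w : List Bool) :
    ∃ A S B T, fibre i w = (A :: S, Exc i (w.length + 1), B :: T) ∧
      ∀ C ∈ B :: T, form e C (Cinf e : H2 l) ≤ 1 := by
  induction w with
  | nil =>
    refine ⟨_, _, _, _, rfl, ?_⟩
    intro C hC
    rw [List.mem_singleton] at hC
    rw [hC, form_sub_left, form_exc_left, form_exc_left, cinf_apply_zero,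
      cinf_apply e i (by omega)]
    norm_num
  | cons b w ih =>
    obtain ⟨A, S, B, T, hw, h⟩ := ih
    have hx : ∀ C : H2 l, form e (C - Exc i (w.length + 2)) (Cinf e) = form e C (Cinf e) := by
      intro C
      rw [form_sub_left, form_exc_left, cinf_apply e i (by omega)]; ring
    have h0 : form e (Exc i (w.length + 1) : H2 l) (Cinf e) = 0 := by
      rw [form_exc_left, cinf_apply e i (by omega)]; ring
    cases b with
    | true =>
      refine ⟨A - Exc i (w.length + 2), S, Exc i (w.length + 1) - Exc i (w.length + 2), B :: T,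
        by rw [fibre, hw]; rfl, ?_⟩
      intro C hC
      rcases List.mem_cons.mp hC with rfl | hC
      · rw [hx, h0]; norm_num
      · exact h C hC
    | false =>
      refine ⟨Exc i (w.length + 1) - Exc i (w.length + 2), A :: S, B - Exc i (w.length + 2), T,
        by rw [fibre, hw]; rfl, ?_⟩
      intro C hC
      rcases List.mem_cons.mp hC with rfl | hC
      · rw [hx]; exact h B (by simp)
      · exact h C (by simp [hC])

theorem no_class {e : ℕ} (hle : l ≤ e) (w : Fin l → List Bool) (K : H2 l →+ ℤ)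
    (hK : Characteristic e K) (t : ℤ) (ht : Odd t) (hC : |K C0| ≤ (e : ℤ) - 2)
    (hS : ∀ i, ∀ S ∈ (fibre i (w i)).1, |K S| ≤ -form e S S - 2)
    (hI : K (Cinf e) = ((e : ℤ) - l) * t)
    (hT : ∀ i, ∀ T ∈ (fibre i (w i)).2.2,
      |K T - form e T (Cinf e) * t| ≤ -form e T T - 2 + form e T (Cinf e)) : False := by
  have hodd : ∀ i j, Odd (K (Exc i j)) := by
    intro i j
    have h := hK (Exc i j)
    rw [form_exc_left, exc_apply, if_pos rfl, sub_neg_eq_add] at h
    obtain ⟨k, hk⟩ := h
    exact ⟨k - 1, by omega⟩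
  have hne : ∀ i j, K (Exc i j) ≠ 0 := by
    intro i j h
    have := hodd i j
    rw [h] at this
    simp at this
  have hf : Even (K Fib) := by
    have h := hK Fib
    rwa [form_fib_fib, sub_zero] at h
  have hg0 : ∀ i, K (Fib - Exc i 0) ≠ 0 := fun i h => by
    have h1 : Odd (K (Fib - Exc i 0)) := by
      rw [map_sub]; exact hf.sub_odd (hodd i 0)
    rw [h] at h1
    simp at h1
  have hS' : ∀ i, ∀ S ∈ (fibre i (w i)).1, |K S| < wt e S := by
    intro i S hm
    have := hS i S hm
    unfold wt; linarith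
  have hT' : ∀ i, ∀ T ∈ (fibre i (w i)).2.2, |vl e K t T| < wt e T := by
    intro i T hm
    have h1 := hT i T hm
    obtain ⟨A, S, B, T', hw, h⟩ := meet e i (w i)
    rw [hw] at hm
    have h2 := h T hm
    unfold wt vl; linarith
  have hD : K Fib - t ≠ 0 := by
    intro h
    have : Odd (K Fib - t) := hf.sub_odd ht
    rw [h] at this
    simp at this
  have hgh : ∀ i : Fin l, K (Exc i 0) = K Fib - K (Fib - Exc i 0) := by
    intro i; rw [map_sub]; ring
  have hsum : K C0 = -((e : ℤ) - l) * (K Fib - t) - ∑ i : Fin l, K (Fib - Exc i 0) := by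
    have h1 : K (Cinf e) = K C0 + e * K Fib - ∑ i : Fin l, K (Exc i 0) := by
      unfold Cinf
      rw [map_sub, map_add, map_zsmul, map_sum]; simp
    have h2 : ∑ i : Fin l, K (Exc i 0) = l * K Fib - ∑ i : Fin l, K (Fib - Exc i 0) := by
      simp_rw [hgh]
      rw [Finset.sum_sub_distrib]
      simp
    rw [h1, h2] at hI
    linarith
  have hm : (0 : ℤ) ≤ (e : ℤ) - l := by
    have : (l : ℤ) ≤ e := by exact_mod_cast hle
    linarith
  rw [abs_le] at hC
  rcases lt_or_gt_of_ne hD with hD | hD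
  · have hg : ∀ i : Fin l, K (Fib - Exc i 0) ≤ -1 := by
      intro i
      by_contra hc
      have h1 := hg0 i
      have h2 := leg_pos e K t i (hne i) (w i) (hS' i) (hT' i) (by omega)
      have h3 := hgh i
      omega
    have h4 : ∑ i : Fin l, K (Fib - Exc i 0) ≤ -(l : ℤ) := by
      calc ∑ i : Fin l, K (Fib - Exc i 0) ≤ ∑ _i : Fin l, (-1 : ℤ) :=
            Finset.sum_le_sum fun i _ => hg i
        _ = -(l : ℤ) := by simp
    nlinarith [mul_le_mul_of_nonneg_left (show K Fib - t ≤ -1 by omega) hm]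
  · have hg : ∀ i : Fin l, 1 ≤ K (Fib - Exc i 0) := by
      intro i
      by_contra hc
      have h1 := hg0 i
      have h2 := leg_neg e K t i (hne i) (w i) (hS' i) (hT' i) (by omega)
      have h3 := hgh i
      omega
    have h4 : (l : ℤ) ≤ ∑ i : Fin l, K (Fib - Exc i 0) := by
      calc (l : ℤ) = ∑ _i : Fin l, (1 : ℤ) := by simp
        _ ≤ ∑ i : Fin l, K (Fib - Exc i 0) := Finset.sum_le_sum fun i _ => hg i
    nlinarith [mul_le_mul_of_nonneg_left (show (1 : ℤ) ≤ K Fib - t by omega) hm]

/-- A positive and a negative tight contact structure never have the same spin^c structure. -/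
theorem no_pair {e : ℕ} (hle : l ≤ e) {w : Fin l → List Bool} (ξ : PosTight e w)
    (η : NegTight e w) : ¬SameSpinc ξ η := by
  rintro ⟨K, t, hK, ht, h0, hS, hI, hT⟩
  refine no_class hle w K hK t ht (h0 ▸ ξ.center.1) ?_ hI ?_
  · intro i S hm
    rw [hS i S hm]
    exact (ξ.legs i S hm).1
  · intro i T hm
    rw [hT i T hm, add_sub_cancel_right]
    exact (η.legs i T hm).1

end Pool.Agent.H95.TP
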