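import Pool.Agent.H95.TP.Main

namespace Pool.Agent.H95.TP

variable {l : ℕ}

theorem head_supp (i : Fin l) (w : List Bool) :
    ∃ A S B T, fibre i w = (A :: S, Exc i (w.length + 1), B :: T) ∧
      (∀ j, w.length + 1 < j → A (Gen.exc i j) = 0) ∧
      (∀ j, w.length + 1 < j → B (Gen.exc i j) = 0) := by
  induction w with
  | nil =>
    refine ⟨_, _, _, _, rfl, ?_, ?_⟩
    · intro j hj
      simp only [List.length_nil] at hj
      rw [Finsupp.sub_apply, Finsupp.sub_apply, exc_apply, exc_apply, if_neg (by omega),
        if_neg (by omega), fib_apply]; ring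
    · intro j hj
      simp only [List.length_nil] at hj
      rw [Finsupp.sub_apply, exc_apply, exc_apply, if_neg (by omega), if_neg (by omega)]; ring
  | cons b w ih =>
    obtain ⟨A, S, B, T, hw, hA, hB⟩ := ih
    have hD : ∀ j, w.length + 2 < j →
        (Exc i (w.length + 1) - Exc i (w.length + 2) : H2 l) (Gen.exc i j) = 0 := by
      intro j hj
      rw [Finsupp.sub_apply, exc_apply, exc_apply, if_neg (by omega), if_neg (by omega)]
      ring
    have hX : ∀ C : H2 l, (∀ j, w.length + 1 < j → C (Gen.exc i j) = 0) →
        ∀ j, w.length + 2 < j → (C - Exc i (w.length + 2)) (Gen.exc i j) = 0 := by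
      intro C hC j hj
      rw [Finsupp.sub_apply, exc_apply, if_neg (by omega), hC j (by omega)]
      ring
    cases b with
    | true =>
      exact ⟨A - Exc i (w.length + 2), S, Exc i (w.length + 1) - Exc i (w.length + 2), B :: T,
        by rw [fibre, hw]; rfl, hX A hA, hD⟩
    | false =>
      exact ⟨Exc i (w.length + 1) - Exc i (w.length + 2), A :: S, B - Exc i (w.length + 2), T,
        by rw [fibre, hw]; rfl, hD, hX B hB⟩

/-- All curves have square at most `-2`, those of the second list meet `Cinf` non-negatively. -/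
theorem neg_two (e : ℕ) (i : Fin l) (w : List Bool) :
    (∀ S ∈ (fibre i w).1, 2 ≤ wt e S) ∧
      ∀ T ∈ (fibre i w).2.2, 2 ≤ wt e T ∧ 0 ≤ form e T (Cinf e) := by
  induction w with
  | nil =>
    have wS : wt e (Fib - Exc i 0 - Exc i 1 : H2 l) = 2 := by
      rw [wt_sub_exc, wt_sub_exc]
      · unfold wt; rw [form_fib_fib]; ring
      · exact fib_apply i 0
      · rw [Finsupp.sub_apply, exc_apply, fib_apply]; simp
    have wT : wt e (Exc i 0 - Exc i 1 : H2 l) = 2 := by
      rw [wt_sub_exc]
      · unfold wt; rw [form_exc_left, exc_apply]; simp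
      · rw [exc_apply]; simp
    refine ⟨?_, ?_⟩
    · intro S hS
      simp only [fibre, List.mem_singleton] at hS
      rw [hS, wS]
    · intro T hT
      simp only [fibre, List.mem_singleton] at hT
      rw [hT, wT, form_sub_left, form_exc_left, form_exc_left, cinf_apply_zero,
        cinf_apply e i (by omega)]
      norm_num
  | cons b w ih =>
    obtain ⟨A, S, B, T, hw, hA, hB⟩ := head_supp i w
    rw [hw] at ih
    obtain ⟨ihS, ihT⟩ := ih
    have wD : wt e (Exc i (w.length + 1) - Exc i (w.length + 2) : H2 l) = 2 := by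
      rw [wt_sub_exc]
      · unfold wt
        rw [form_exc_left, exc_apply]; simp
      · rw [exc_apply, if_neg (by omega)]
    have hx : ∀ C : H2 l, form e (C - Exc i (w.length + 2)) (Cinf e) = form e C (Cinf e) := by
      intro C
      rw [form_sub_left, form_exc_left, cinf_apply e i (by omega)]; ring
    have h0 : form e (Exc i (w.length + 1) : H2 l) (Cinf e) = 0 := by
      rw [form_exc_left, cinf_apply e i (by omega)]; ring
    have wA : wt e (A - Exc i (w.length + 2)) = wt e A + 1 :=
      wt_sub_exc e i _ A (hA _ (by omega))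
    have wB : wt e (B - Exc i (w.length + 2)) = wt e B + 1 :=
      wt_sub_exc e i _ B (hB _ (by omega))
    have a2 := ihS A (by simp)
    have b2 := ihT B (by simp)
    cases b with
    | true =>
      rw [fibre, hw]
      refine ⟨?_, ?_⟩
      · intro C hC
        rcases List.mem_cons.mp hC with rfl | hC
        · rw [wA]; omega
        · exact ihS C (by simp [hC])
      · intro C hC
        rcases List.mem_cons.mp hC with rfl | hC
        · rw [wD, hx, h0]; norm_num
        · exact ihT C hC
    | false =>
      rw [fibre, hw]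
      refine ⟨?_, ?_⟩
      · intro C hC
        rcases List.mem_cons.mp hC with rfl | hC
        · rw [wD]
        · exact ihS C hC
      · intro C hC
        rcases List.mem_cons.mp hC with rfl | hC
        · rw [wB, hx]; exact ⟨by omega, b2.2⟩
        · exact ihT C (by simp [hC])

theorem nonempty_pos {e : ℕ} (he : 2 ≤ e) (w : Fin l → List Bool) : Nonempty (PosTight e w) := by
  have h0 : form e (C0 : H2 l) C0 = -(e : ℤ) := by
    unfold C0
    rw [form_single_left]
    simp [pair]
  refine ⟨⟨fun x => -form e x x - 2, ?_, ?_⟩⟩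
  · rw [h0, abs_of_nonneg (by omega)]
    exact ⟨by omega, -1, by ring⟩
  · intro i S hS
    have h := (neg_two e i (w i)).1 S hS
    unfold wt at h
    rw [abs_of_nonneg (by omega)]
    exact ⟨le_refl _, -form e S S - 1, by ring⟩

theorem nonempty_neg (e : ℕ) (w : Fin l → List Bool) : Nonempty (NegTight e w) := by
  refine ⟨⟨fun x => -form e x x - 2 + form e x (Cinf e), ?_⟩⟩
  intro i T hT
  have h := (neg_two e i (w i)).2 T hT
  unfold wt at h
  rw [abs_of_nonneg (by omega)]
  exact ⟨le_refl _, -form e T T - 1, by ring⟩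

/-- The squares of the `S`-curves, read from the `(-1)`-curve to `C0`. -/
noncomputable def squares (e : ℕ) (i : Fin l) (w : List Bool) : List ℤ :=
  (fibre i w).1.map fun S => -form e S S

theorem squares_nil (e : ℕ) (i : Fin l) : squares e i [] = [2] := by
  unfold squares fibre
  simp only [List.map_cons, List.map_nil]
  have wS : wt e (Fib - Exc i 0 - Exc i 1 : H2 l) = 2 := by
    rw [wt_sub_exc, wt_sub_exc]
    · unfold wt; rw [form_fib_fib]; ring
    · exact fib_apply i 0
    · rw [Finsupp.sub_apply, exc_apply, fib_apply]; simp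
  unfold wt at wS
  rw [wS]

theorem squares_true (e : ℕ) (i : Fin l) (w : List Bool) {x : ℤ} {a : List ℤ}
    (h : squares e i w = x :: a) : squares e i (true :: w) = (x + 1) :: a := by
  obtain ⟨A, S, B, T, hw, hA, -⟩ := head_supp i w
  unfold squares at h ⊢
  rw [hw] at h
  rw [fibre, hw]
  simp only [blow, List.map_cons] at h ⊢
  have h1 : wt e (A - Exc i (w.length + 2)) = wt e A + 1 := wt_sub_exc e i _ A (hA _ (by omega))
  unfold wt at h1
  rw [h1]
  simp only [List.cons.injEq] at h ⊢
  exact ⟨by rw [h.1], h.2⟩

theorem squares_false (e : ℕ) (i : Fin l) (w : List Bool) :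
    squares e i (false :: w) = 2 :: squares e i w := by
  obtain ⟨A, S, B, T, hw, hA, -⟩ := head_supp i w
  unfold squares
  rw [fibre, hw]
  simp only [blow, List.map_cons]
  have h1 : wt e (Exc i (w.length + 1) - Exc i (w.length + 2) : H2 l) = 2 := by
    rw [wt_sub_exc]
    · unfold wt
      rw [form_exc_left, exc_apply]; simp
    · rw [exc_apply, if_neg (by omega)]
  unfold wt at h1
  rw [h1]

theorem exists_word (e : ℕ) (i : Fin l) (a : List ℤ) (hne : a ≠ []) (ha : ∀ x ∈ a, 2 ≤ x) :
    ∃ w : List Bool, squares e i w = a := by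
  induction a with
  | nil => exact absurd rfl hne
  | cons x a ih =>
    have hx : 2 ≤ x := ha x (by simp)
    have h2 : ∃ w : List Bool, squares e i w = 2 :: a := by
      rcases eq_or_ne a [] with rfl | h
      · exact ⟨[], squares_nil e i⟩
      · obtain ⟨w, hw⟩ := ih h fun y hy => ha y (by simp [hy])
        exact ⟨false :: w, by rw [squares_false, hw]⟩
    clear ih ha hne
    induction x, hx using Int.leInduction with
    | base => exact h2
    | succ n _ hn =>
      obtain ⟨w, hw⟩ := hn
      exact ⟨true :: w, squares_true e i w hw⟩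

theorem exists_words (e : ℕ) (a : Fin l → List ℤ) (ha : ∀ i, a i ≠ [] ∧ ∀ x ∈ a i, 2 ≤ x) :
    ∃ w : Fin l → List Bool, ∀ i, squares e i (w i) = a i := by
  choose w hw using fun i => exists_word e i (a i) (ha i).1 (ha i).2
  exact ⟨w, hw⟩

end Pool.Agent.H95.TP
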